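import Pool.Agent.Helper30.RD3.Sheet

set_option autoImplicit false

namespace Pool.Agent.Helper30.RD3

open Finset Pool.Agent.Helper18.RD

theorem HH_le30 {N : ℕ} (hN : 1 ≤ N) : HH N ≤ 3 * (1 + Real.log N) := by
  have h16 : Real.log 16 ≤ 3 := by
    have : (16 : ℝ) = 2 ^ (4 : ℕ) := by norm_num
    rw [this, Real.log_pow]
    have := Real.log_two_lt_d9
    push_cast
    linarith
  unfold HH
  have := Real.log_nonneg (show (1 : ℝ) ≤ N by exact_mod_cast hN)
  linarith

theorem HH_nn30 {N : ℕ} (hN : 1 ≤ N) : 0 ≤ HH N := by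
  unfold HH
  have := Real.log_nonneg (show (1 : ℝ) ≤ N by exact_mod_cast hN)
  have : 0 ≤ Real.log 16 := Real.log_nonneg (by norm_num)
  linarith

open Classical in
theorem st_BAD3 (hW : ST_W) (hBL : ST_BL) : ST_BAD3 := by
  intro j
  obtain ⟨K, hK⟩ : ∃ K : ℝ, K = 4 ^ j := ⟨_, rfl⟩
  have hK1 : (1 : ℝ) ≤ K := by rw [hK]; exact one_le_pow₀ (by norm_num)
  have hK0 : (0 : ℝ) < K := by linarith
  obtain ⟨G, hG⟩ : ∃ G : ℝ, G = 2 ^ j := ⟨_, rfl⟩
  have hG1 : (1 : ℝ) ≤ G := by rw [hG]; exact one_le_pow₀ (by norm_num)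
  have hG0 : (0 : ℝ) < G := by linarith
  have hj0 : (0 : ℝ) ≤ (j : ℝ) := Nat.cast_nonneg _
  obtain ⟨C, hC⟩ : ∃ C : ℝ, C = 2 * G * (32 * K + 12) + 2 * j + 2 := ⟨_, rfl⟩
  have hC2 : 2 ≤ C := by
    rw [hC]
    have : 0 ≤ 2 * G * (32 * K + 12) := by positivity
    linarith
  have hC0 : 0 < C := by linarith
  refine ⟨C, hC0, ?_⟩
  intro N q1 q2 P D S e c d k w hN hq1 hq2 hcop hD hD1 hP hS hPP
  have hNr : (1 : ℝ) ≤ N := by exact_mod_cast hN
  have hL0 : 0 ≤ Real.log N := Real.log_nonneg hNr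
  have hD0 : 0 < D := by linarith
  have hω : (0 : ℝ) ≤ (q2.primeFactors.card : ℝ) := Nat.cast_nonneg _
  have hP0 : (0 : ℝ) < P := by
    have : 0 < C * D * (1 + Real.log N) := by positivity
    linarith
  obtain ⟨x, hx⟩ : ∃ x : ℝ, x = Real.log q1 := ⟨_, rfl⟩
  have hx0 : 0 ≤ x := by
    rw [hx]; exact Real.log_nonneg (by exact_mod_cast hq1)
  obtain ⟨y, hy⟩ : ∃ y : ℝ, y = P / D := ⟨_, rfl⟩
  have hyL : C * (1 + Real.log N) ≤ y := by
    rw [hy, le_div_iff₀ hD0]
    linarith
  have hyC : C ≤ y := by nlinarith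
  have hy0 : 0 < y := by linarith
  have hyPP : y ≤ (PP (q1 * q2) P).card := by
    rw [hy, div_le_iff₀ hD0]
    linarith
  have hHH : HH N ≤ 3 * (y / C) := by
    have h1 := HH_le30 hN
    have h2 : 1 + Real.log N ≤ y / C := by
      rw [le_div_iff₀ hC0]; linarith
    linarith
  have hHH0 : 0 ≤ HH N := HH_nn30 hN
  rw [← hx] at hS
  set R : ℝ := (S.card : ℝ) with hR
  have hDx : 0 ≤ D * x / P := by positivity
  have hSC : C ≤ R := by nlinarith
  have hR1 : 1 ≤ R := by linarith
  have hR0 : 0 < R := by linarith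
  have hxR : x / R ≤ y / C := by
    rw [div_le_div_iff₀ hR0 hC0]
    have h1 : C * (D * x / P) ≤ R := by nlinarith
    have h2 : y * (C * (D * x / P)) ≤ y * R := mul_le_mul_of_nonneg_left h1 hy0.le
    have h3 : y * (C * (D * x / P)) = x * C := by
      rw [hy]; field_simp
    linarith
  -- total weight
  set W : ℝ := w + ∑ l ∈ OP (q1 * q2), wt (q1 * q2) l with hWdef
  have hWle : W ≤ 2 * x + 2 * Real.sqrt R * HH N := by
    have h1 : 2 * (q2.primeFactors.card + 1) ≤ S.card := by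
      have : (2 * (q2.primeFactors.card + 1) : ℝ) ≤ S.card := by
        rw [← hR]
        nlinarith
      exact_mod_cast this
    have := hW N q1 q2 S e c d k w hN hq1 hq2 hcop hD h1
    rw [← hx] at this
    exact this
  have hW0 : 0 ≤ W := by
    have h1 : 0 ≤ w := hD.w0
    have h2 : 0 ≤ ∑ l ∈ OP (q1 * q2), wt (q1 * q2) l := by
      apply sum_nonneg
      intro l hl
      have : l ∈ (q1 * q2).primeFactors := mem_of_mem_erase hl
      have hlp := Nat.prime_of_mem_primeFactors this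
      unfold wt pw
      apply Real.log_nonneg
      exact_mod_cast Nat.one_le_pow _ _ hlp.pos
    linarith
  have hsR1 : 1 ≤ Real.sqrt R := Real.one_le_sqrt.2 hR1
  have hWS : W / R ≤ 8 * (y / C) := by
    rw [div_le_iff₀ hR0]
    have h4 : Real.sqrt R * Real.sqrt R = R := Real.mul_self_sqrt hR0.le
    have h5 : Real.sqrt R ≤ R := by nlinarith
    have h6 : x ≤ (y / C) * R := by
      rwa [div_le_iff₀ hR0] at hxR
    have h7 : 2 * Real.sqrt R * HH N ≤ 2 * R * (3 * (y / C)) := by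
      refine mul_le_mul (by linarith) hHH hHH0 (by positivity)
    linarith
  set B : ℝ := (y / C) * (32 * K + 12) with hB
  have hB0 : 0 ≤ B := by
    rw [hB]; positivity
  refine ⟨⌊B⌋₊, ?_, ?_⟩
  · have hb : (⌊B⌋₊ : ℝ) ≤ B := Nat.floor_le hB0
    have h1 : (2 * (2 ^ j * (⌊B⌋₊ : ℝ) + j)) ≤ ((PP (q1 * q2) P).card : ℝ) := by
      rw [← hG]
      refine le_trans ?_ hyPP
      have h2 : 2 * (G * (⌊B⌋₊ : ℝ)) ≤ 2 * (G * B) := by
        have := mul_le_mul_of_nonneg_left hb hG0.le
        linarith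
      have h3 : (1 : ℝ) ≤ y / C := by rw [one_le_div hC0]; exact hyC
      have h4 : 2 * (j : ℝ) ≤ 2 * j * (y / C) := by nlinarith
      have h5 : 2 * (G * B) + 2 * j * (y / C) ≤ y := by
        have e1 : 2 * (G * B) + 2 * j * (y / C) = (y / C) * (2 * G * (32 * K + 12) + 2 * j) := by
          rw [hB]; ring
        have e2 : 2 * G * (32 * K + 12) + 2 * j ≤ C := by rw [hC]; linarith
        rw [e1]
        calc (y / C) * (2 * G * (32 * K + 12) + 2 * j) ≤ (y / C) * C :=
              mul_le_mul_of_nonneg_left e2 (by positivity)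
          _ = y := div_mul_cancel₀ y hC0.ne'
      linarith
    exact_mod_cast h1
  · intro S' hS' hc
    have hcr : R ≤ K * (S'.card : ℝ) := by
      rw [hK, hR]
      exact_mod_cast hc
    have hS'0 : (0 : ℝ) < (S'.card : ℝ) := by
      by_contra h
      have h0 : (S'.card : ℝ) ≤ 0 := not_lt.mp h
      nlinarith
    have hne : S'.Nonempty := by
      rw [← Finset.card_pos]
      exact_mod_cast hS'0
    have hbl := hBL N (q1 * q2) S e c d k w hN hD S' hS' hne
    rw [← hWdef] at hbl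
    have h1 : W / S'.card ≤ K * (W / R) := by
      rw [div_le_iff₀ hS'0]
      have h2 : K * (W / R) * (S'.card : ℝ) = W / R * (K * S'.card) := by ring
      rw [h2]
      calc W = W / R * R := (div_mul_cancel₀ W hR0.ne').symm
        _ ≤ W / R * (K * S'.card) := mul_le_mul_of_nonneg_left hcr (by positivity)
    have h2 : K * (W / R) ≤ K * (8 * (y / C)) := mul_le_mul_of_nonneg_left hWS hK0.le
    have h3 : (((PP (q1 * q2) P).filter (fun p => ¬ Bal e S' p)).card : ℝ) ≤
        (((OP (q1 * q2)).filter (fun p => ¬ Bal e S' p)).card : ℝ) := by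
      have : ((PP (q1 * q2) P).filter (fun p => ¬ Bal e S' p)) ⊆
          ((OP (q1 * q2)).filter (fun p => ¬ Bal e S' p)) := by
        apply filter_subset_filter
        unfold PP
        exact filter_subset _ _
      exact_mod_cast card_le_card this
    have h4 : (((PP (q1 * q2) P).filter (fun p => ¬ Bal e S' p)).card : ℝ) ≤ B := by
      refine h3.trans (hbl.trans ?_)
      rw [hB]
      have e1 : (y / C) * (32 * K + 12) = 4 * (K * (8 * (y / C)) + 3 * (y / C)) := by ring
      rw [e1]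
      linarith
    exact Nat.le_floor h4

end Pool.Agent.Helper30.RD3
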