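import Pool.Agent.Helper18.RD.Stmts2

/-! Project RD, third form: moduli with many small primes.  Exponent `2 / 5`. -/

set_option autoImplicit false

namespace Pool.Agent.Helper30.RD3

open Finset Pool.Agent.Helper18.RD

/-- MLOW3: lower bound for the number of square pairs; `K + K` primes, density `1 / D`. -/
def ST_MLOW3 : Prop := ∀ K : ℕ, 1 ≤ K → ∃ C : ℝ, 0 < C ∧ ∀ (N q P : ℕ) (D : ℝ) (S : Finset ℕ)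
  (e c d : ℕ → ℕ → ℤ) (k : ℤ) (w : ℝ) (T : Finset (Fin (K + K) → ℕ)),
  1 ≤ N → N ^ 10 ≤ P ^ K → 1 ≤ D → Dat N q S e c d k w → (P : ℝ) ≤ D * (PP q P).card →
  (∀ t ∈ T, Function.Injective t ∧ (∀ i, t i ∈ PP q P) ∧ Good S e (K + K) t) →
  (PP q P).card ^ (K + K) ≤ 2 ^ (K + K) * T.card →
  (S.card : ℝ) ^ 8 ≤ C * D ^ (K + K) *
    (((MM S c d).card : ℝ) + (S.card : ℝ) ^ 8 / (N : ℝ) ^ 2)

open Classical in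
/-- BAD3: the hypothesis of GT is satisfied. -/
def ST_BAD3 : Prop := ∀ j : ℕ, ∃ C : ℝ, 0 < C ∧ ∀ (N q1 q2 P : ℕ) (D : ℝ)
  (S : Finset ℕ) (e c d : ℕ → ℕ → ℤ) (k : ℤ) (w : ℝ), 1 ≤ N → 1 ≤ q1 → 1 ≤ q2 →
  Nat.Coprime q1 q2 → Dat N (q1 * q2) S e c d k w → 1 ≤ D →
  C * D * (1 + Real.log N) ≤ P →
  C * (D * Real.log q1 / P + q2.primeFactors.card + 1) ≤ S.card →
  (P : ℝ) ≤ D * (PP (q1 * q2) P).card →
  ∃ b : ℕ, 2 * (2 ^ j * b + j) ≤ (PP (q1 * q2) P).card ∧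
    ∀ S' : Finset ℕ, S' ⊆ S → S.card ≤ 4 ^ j * S'.card →
      ((PP (q1 * q2) P).filter (fun p => ¬ Bal e S' p)).card ≤ b

/-- END3: upper bound for the number of square pairs, all sizes of `S`. -/
def ST_END3 : Prop := ∀ ε : ℝ, 0 < ε → ∃ C : ℝ, 0 < C ∧ ∀ (N : ℕ) (S : Finset ℕ)
  (c d : ℕ → ℕ → ℤ) (k : ℤ), 1 ≤ N → S ⊆ range N → (k = 1 ∨ k = 2) →
  (∀ n ∈ S, ∀ n' ∈ S, n ≠ n' → c n n' * d n n' = k * ((n : ℤ) - n')) →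
  ((MM S c d).card : ℝ) ≤ C * (S.card : ℝ) ^ 7 * (S.card : ℝ) ^ (1 / 6 : ℝ) *
    (N : ℝ) ^ (1 / 3 + ε)

/-- DP: moduli divisible by many primes up to `P`. -/
def ST_DP : Prop := ∀ ε : ℝ, 0 < ε → ∃ (C : ℝ) (κ : ℕ), ∀ (N q1 q2 a P : ℕ) (D : ℝ), 1 ≤ N →
  1 ≤ q1 → 1 ≤ q2 → Nat.Coprime q1 q2 → Nat.Coprime (q1 * q2) a → (N : ℝ) ^ ε ≤ P → 1 ≤ D →
  (P : ℝ) ≤ D * (((Icc 1 P).filter (fun p => p.Prime ∧ p ≠ 2 ∧ p ∣ q1 * q2)).card : ℝ) →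
  (((range N).filter (fun n => IsSquare (q1 * q2 * n + a))).card : ℝ) ≤
    C * (D ^ κ * (N : ℝ) ^ (2 / 5 + ε) + D * Real.log q1 / P + (q2.primeFactors.card : ℝ))

end Pool.Agent.Helper30.RD3
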