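import Pool.Agent.Helper18.RD.Stmts4
import Pool.Agent.Helper30.RD3.Sheet

set_option autoImplicit false

namespace Pool.Agent.Helper30.RD3

open Finset Pool.Agent.Helper18.RD

theorem st_DP4 (hAR : ST_AR) (hBAD : ST_BAD3) (hGT : ST_GT) (hM : ST_MLOW3) (hE : ST_END4) :
    ST_DP4 := by
  classical
  intro ε hε
  obtain ⟨K, hK⟩ : ∃ K : ℕ, K = ⌈10 / ε⌉₊ := ⟨_, rfl⟩
  have hKε : 10 ≤ ε * K := by
    have h1 : 10 / ε ≤ K := by rw [hK]; exact Nat.le_ceil _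
    rw [div_le_iff₀ hε] at h1
    linarith
  have hK1 : 1 ≤ K := by
    rw [hK]; exact Nat.ceil_pos.mpr (by positivity)
  obtain ⟨C2, hC2, hB⟩ := hBAD (K + K)
  obtain ⟨C3, hC3, hM⟩ := hM K hK1
  obtain ⟨C4, hC4, hE⟩ := hE ε hε
  obtain ⟨N0, hN0⟩ : ∃ N0 : ℕ, ∀ N : ℕ, N0 ≤ N →
      C2 * (1 + Real.log N) ≤ (N : ℝ) ^ (ε / 2) ∧ 2 * C3 ≤ (N : ℝ) := by
    have h2 : (fun x : ℝ => 1 + Real.log x) =o[Filter.atTop] (fun x : ℝ => x ^ (ε / 2)) := by
      apply Asymptotics.IsLittleO.add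
      · rw [Asymptotics.isLittleO_const_left]
        right
        exact tendsto_norm_atTop_atTop.comp (tendsto_rpow_atTop (by positivity))
      · exact isLittleO_log_rpow_atTop (by positivity)
    have h3 := h2.bound (show (0 : ℝ) < 1 / C2 by positivity)
    have h4 : ∀ᶠ x : ℝ in Filter.atTop, C2 * (1 + Real.log x) ≤ x ^ (ε / 2) ∧ 2 * C3 ≤ x := by
      filter_upwards [h3, Filter.eventually_ge_atTop (2 * C3), Filter.eventually_ge_atTop 1]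
        with x hx hx2 hx1
      refine ⟨?_, hx2⟩
      have h5 : (0 : ℝ) < x ^ (ε / 2) := Real.rpow_pos_of_pos (by linarith) _
      rw [Real.norm_of_nonneg h5.le] at hx
      have h6 : 1 + Real.log x ≤ 1 / C2 * x ^ (ε / 2) := (Real.le_norm_self _).trans hx
      calc C2 * (1 + Real.log x) ≤ C2 * (1 / C2 * x ^ (ε / 2)) :=
            mul_le_mul_of_nonneg_left h6 hC2.le
        _ = x ^ (ε / 2) := by field_simp
    obtain ⟨N0, hN0⟩ := Filter.eventually_atTop.mp (tendsto_natCast_atTop_atTop.eventually h4)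
    exact ⟨N0, fun N hN => hN0 N hN⟩
  obtain ⟨κ, hκ⟩ : ∃ κ : ℝ, κ = 4 * K + 2 / ε := ⟨_, rfl⟩
  have hKr : (1 : ℝ) ≤ K := by exact_mod_cast hK1
  have h2ε : 0 < 2 / ε := by positivity
  have hκ0 : 0 < κ := by rw [hκ]; positivity
  obtain ⟨C5, hC5⟩ : ∃ C5 : ℝ, C5 = 4 * C3 ^ 2 * C4 := ⟨_, rfl⟩
  have hC50 : 0 < C5 := by rw [hC5]; positivity
  obtain ⟨C, hC⟩ : ∃ C : ℝ, C = 4 * C2 + 2 * C5 + N0 + 4 := ⟨_, rfl⟩
  have hN0' : (0 : ℝ) ≤ N0 := Nat.cast_nonneg _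
  have hCpos : 0 < C := by rw [hC]; positivity
  refine ⟨C, κ, hCpos, hκ0, ?_⟩
  intro N q1 q2 a P D hN hq1 hq2 hcop hcopa hNP hD1 hPP
  have hNr : (1 : ℝ) ≤ N := by exact_mod_cast hN
  have hNpos : (0 : ℝ) < N := by linarith
  have hD0 : 0 < D := by linarith
  have hq : 1 ≤ q1 * q2 := Nat.one_le_iff_ne_zero.mpr (by positivity)
  have hNε : 1 ≤ (N : ℝ) ^ ε := Real.one_le_rpow hNr hε.le
  have hP1 : (1 : ℝ) ≤ P := hNε.trans hNP
  by_contra hcon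
  push Not at hcon
  obtain ⟨R, hR⟩ : ∃ R : ℝ, R = ((SS N (q1 * q2) a).card : ℝ) := ⟨_, rfl⟩
  rw [← hR] at hcon
  have hRN : R ≤ N := by
    have h1 : (SS N (q1 * q2) a).card ≤ N := by
      calc (SS N (q1 * q2) a).card ≤ (range N).card := card_filter_le _ _
        _ = N := card_range N
    rw [hR]; exact_mod_cast h1
  have hL0 : 0 ≤ Real.log (q1 : ℝ) := Real.log_natCast_nonneg q1
  obtain ⟨x, hx⟩ : ∃ x : ℝ, x = D * Real.log q1 / P := ⟨_, rfl⟩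
  have hx0 : 0 ≤ x := by rw [hx]; positivity
  obtain ⟨om, hom⟩ : ∃ om : ℝ, om = (q2.primeFactors.card : ℝ) := ⟨_, rfl⟩
  have hom0 : 0 ≤ om := by rw [hom]; positivity
  obtain ⟨Y, hY⟩ : ∃ Y : ℝ, Y = D ^ κ * (N : ℝ) ^ ε := ⟨_, rfl⟩
  have hDκ : 1 ≤ D ^ κ := Real.one_le_rpow hD1 hκ0.le
  have hN25 : 1 ≤ (N : ℝ) ^ ε := Real.one_le_rpow hNr (by positivity)
  have hY1 : 1 ≤ Y := by rw [hY]; exact one_le_mul_of_one_le_of_one_le hDκ hN25
  rw [← hx, ← hom, ← hY] at hcon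
  have hcon2 : C * (Y + x + om) ≤ R := hcon.le
  have hCN0 : (N0 : ℝ) ≤ C := by rw [hC]; linarith
  have hC4' : 4 ≤ C := by rw [hC]; linarith
  have hNC : (N0 : ℝ) ≤ N := by
    have h1 : C * 1 ≤ C * (Y + x + om) := mul_le_mul_of_nonneg_left (by linarith) hCpos.le
    linarith
  obtain ⟨hN1, hN2⟩ := hN0 N (by exact_mod_cast hNC)
  -- D is small
  have hDN : D ^ κ ≤ N := by
    have h1 : Y ≤ N := by nlinarith
    calc D ^ κ = D ^ κ * 1 := (mul_one _).symm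
      _ ≤ D ^ κ * (N : ℝ) ^ ε := by gcongr
      _ ≤ N := by rw [← hY]; exact h1
  have hDN1 : D ^ (K + K) ≤ N := by
    refine le_trans ?_ hDN
    rw [← Real.rpow_natCast]
    apply Real.rpow_le_rpow_of_exponent_le hD1
    push_cast
    rw [hκ]; linarith
  have hDN2 : D ≤ (N : ℝ) ^ (ε / 2) := by
    have h1 : (D ^ κ) ^ (ε / 2) ≤ (N : ℝ) ^ (ε / 2) :=
      Real.rpow_le_rpow (by positivity) hDN (by positivity)
    refine le_trans ?_ h1
    rw [← Real.rpow_mul hD0.le]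
    calc D = D ^ (1 : ℝ) := (Real.rpow_one D).symm
      _ ≤ D ^ (κ * (ε / 2)) := by
        apply Real.rpow_le_rpow_of_exponent_le hD1
        have h2 : 2 / ε ≤ κ := by rw [hκ]; linarith
        calc (1 : ℝ) = 2 / ε * (ε / 2) := by field_simp
          _ ≤ κ * (ε / 2) := mul_le_mul_of_nonneg_right h2 (by positivity)
  have hPbig : C2 * D * (1 + Real.log N) ≤ P := by
    calc C2 * D * (1 + Real.log N) = D * (C2 * (1 + Real.log N)) := by ring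
      _ ≤ (N : ℝ) ^ (ε / 2) * (N : ℝ) ^ (ε / 2) := by
        apply mul_le_mul hDN2 hN1 _ (by positivity)
        have := Real.log_natCast_nonneg N
        positivity
      _ = (N : ℝ) ^ ε := by rw [← Real.rpow_add hNpos]; congr 1; ring
      _ ≤ P := hNP
  have hNPK : N ^ 10 ≤ P ^ K := by
    have h1 : (N : ℝ) ^ (10 : ℕ) ≤ (P : ℝ) ^ K := by
      calc (N : ℝ) ^ (10 : ℕ) = (N : ℝ) ^ (10 : ℝ) := by
            rw [← Real.rpow_natCast]; norm_num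
        _ ≤ (N : ℝ) ^ (ε * K) := Real.rpow_le_rpow_of_exponent_le hNr hKε
        _ = ((N : ℝ) ^ ε) ^ K := by rw [Real.rpow_mul hNpos.le, Real.rpow_natCast]
        _ ≤ (P : ℝ) ^ K := pow_le_pow_left₀ (by positivity) hNP K
    exact_mod_cast h1
  -- the points
  obtain ⟨S, e, c, d, k, w, hSS, hhalf, hdat⟩ := hAR N (q1 * q2) a hN hq hcopa
  have hhalf' : R ≤ 2 * (S.card : ℝ) := by rw [hR]; exact_mod_cast hhalf
  have hSbig : C / 2 * (Y + x + om) ≤ S.card := by linarith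
  obtain ⟨b, hb1, hb2⟩ := hB N q1 q2 P D S e c d k w hN hq1 hq2 hcop hdat hD1 hPbig (by
      have h1 : 2 * C2 ≤ C / 2 := by rw [hC]; linarith
      rw [← hx, ← hom]
      calc C2 * (x + om + 1) ≤ 2 * C2 * (Y + x + om) := by nlinarith
        _ ≤ C / 2 * (Y + x + om) := mul_le_mul_of_nonneg_right h1 (by linarith)
        _ ≤ S.card := hSbig) hPP
  have hSpos : (0 : ℝ) < S.card := by
    have : 0 < C / 2 * (Y + x + om) := by positivity
    linarith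
  have hSne : S.Nonempty := by
    rw [← card_pos]; exact_mod_cast hSpos
  obtain ⟨T, hT1, hT2⟩ := hGT S (PP (q1 * q2) P) e (K + K) b hSne hdat.sgn hb2 hb1
  have hmain := hM N (q1 * q2) P D S e c d k w T hN hNPK hD1 hdat hPP hT1 hT2
  have hend := hE N S c d k hN hdat.sub hdat.kap hdat.cd
  obtain ⟨t, ht⟩ : ∃ t : ℝ, t = (S.card : ℝ) := ⟨_, rfl⟩
  rw [← ht] at hmain hend hSpos hSbig
  obtain ⟨Q, hQ⟩ : ∃ Q : ℝ, Q = D ^ (K + K) := ⟨_, rfl⟩
  have hQ0 : 0 < Q := by rw [hQ]; positivity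
  have h7 : C3 * Q * (t ^ 8 / (N : ℝ) ^ 2) ≤ t ^ 8 / 2 := by
    have h1 : C3 * Q ≤ (N : ℝ) / 2 * N := by
      have : C3 ≤ (N : ℝ) / 2 := by linarith
      rw [hQ]
      exact mul_le_mul this hDN1 (by positivity) (by positivity)
    calc C3 * Q * (t ^ 8 / (N : ℝ) ^ 2) ≤ ((N : ℝ) / 2 * N) * (t ^ 8 / (N : ℝ) ^ 2) :=
          mul_le_mul_of_nonneg_right h1 (by positivity)
      _ = t ^ 8 / 2 := by field_simp
  have h8 : t ^ 8 ≤ 2 * (C3 * Q * (MM S c d).card) := by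
    rw [← hQ, mul_add] at hmain
    linarith
  have hDK : Q ^ 2 ≤ D ^ κ := by
    rw [hQ, ← pow_mul, ← Real.rpow_natCast]
    apply Real.rpow_le_rpow_of_exponent_le hD1
    push_cast
    rw [hκ]; linarith
  have h9 : t ^ 15 * t ≤ t ^ 15 * (C5 * Y) := by
    calc t ^ 15 * t = (t ^ 8) ^ 2 := by ring
      _ ≤ (2 * (C3 * Q * (MM S c d).card)) ^ 2 := pow_le_pow_left₀ (by positivity) h8 2
      _ = 4 * C3 ^ 2 * Q ^ 2 * ((MM S c d).card : ℝ) ^ 2 := by ring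
      _ ≤ 4 * C3 ^ 2 * D ^ κ * (C4 * t ^ 15 * (N : ℝ) ^ ε) := by gcongr
      _ = t ^ 15 * (C5 * Y) := by rw [hC5, hY]; ring
  have h10 : t ≤ C5 * Y := le_of_mul_le_mul_left h9 (by positivity)
  have h11 : C / 2 * (Y + x + om) ≥ (C5 + 1) * Y := by
    have h1 : C5 + 1 ≤ C / 2 := by rw [hC]; linarith
    calc (C5 + 1) * Y ≤ C / 2 * Y := mul_le_mul_of_nonneg_right h1 (by linarith)
      _ ≤ C / 2 * (Y + x + om) := mul_le_mul_of_nonneg_left (by linarith) (by positivity)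
  nlinarith

end Pool.Agent.Helper30.RD3
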