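import Pool.Agent.Helper30.RD3.Sheet
import Pool.Agent.Helper54.RD.MLOW

set_option autoImplicit false

namespace Pool.Agent.Helper30.RD3

open Finset Pool.Agent.Helper18.RD

/-- lower bound for `QQ` at the two halves of a good tuple -/
lemma mlow3_QQ (hL : ST_LOW) {K : ℕ} (hK : 1 ≤ K) {N q P : ℕ} {S : Finset ℕ} {e : ℕ → ℕ → ℤ}
    {c d : ℕ → ℕ → ℤ} {k : ℤ}
    {w : ℝ} (hD : Dat N q S e c d k w) {t : Fin (K + K) → ℕ} (ht : ∀ i, t i ∈ PP q P)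
    (hg : Good S e (K + K) t) :
    ((S.card : ℤ)) ^ 8 ≤ (4 ^ (8 * K)) ^ 2 *
      (QQ S c d (∏ i : Fin K, t (Fin.castAdd K i)) (∏ i : Fin K, t (Fin.natAdd K i))) ^ 2 := by
  have hOP : ∀ i, t i ∈ OP q := fun i => (mem_filter.mp (ht i)).1
  set X : Finset ℕ := S.filter (fun n => ∀ i, e n (t i) = 1) with hX
  set σ : Fin (K + K) → ℤ := fun i => if (i : ℕ) < K then -1 else 1 with hσ
  set Y : Finset ℕ := S.filter (fun n => ∀ i, e n (t i) = σ i) with hY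
  have hσ1 : ∀ i : Fin K, σ (Fin.castAdd K i) = -1 := by
    intro i
    simp only [hσ, Fin.val_castAdd]
    rw [if_pos i.2]
  have hσ2 : ∀ i : Fin K, σ (Fin.natAdd K i) = 1 := by
    intro i
    simp only [hσ, Fin.val_natAdd]
    rw [if_neg (by omega)]
  have hXc : S.card ≤ 4 ^ (K + K) * X.card := hg (fun _ => 1) (fun _ => Or.inl rfl)
  have hYc : S.card ≤ 4 ^ (K + K) * Y.card := hg σ (fun i => by
    simp only [hσ]
    split_ifs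
    · right; rfl
    · left; rfl)
  have h1 := hL N q S e c d k w K (fun i => t (Fin.castAdd K i)) (fun i => t (Fin.natAdd K i))
    X Y hD hK (fun i => hOP _) (fun i => hOP _) (filter_subset _ _)
    (filter_subset _ _)
    (fun n hn i => by
      rw [hX, mem_filter] at hn
      exact ⟨hn.2 _, hn.2 _⟩)
    (fun n hn i => by
      rw [hY, mem_filter] at hn
      exact ⟨(hn.2 _).trans (hσ1 i), (hn.2 _).trans (hσ2 i)⟩)
  set Q : ℤ := QQ S c d (∏ i : Fin K, t (Fin.castAdd K i)) (∏ i : Fin K, t (Fin.natAdd K i))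
    with hQ
  have hXz : (S.card : ℤ) ≤ 4 ^ (K + K) * X.card := by exact_mod_cast hXc
  have hYz : (S.card : ℤ) ≤ 4 ^ (K + K) * Y.card := by exact_mod_cast hYc
  have hs0 : (0 : ℤ) ≤ S.card := by positivity
  have h2 : (S.card : ℤ) ^ 2 ≤ 4 ^ (4 * K) * ((X.card : ℤ) * Y.card) := by
    have := mul_le_mul hXz hYz hs0 (by positivity)
    calc (S.card : ℤ) ^ 2 = S.card * S.card := by ring
      _ ≤ (4 ^ (K + K) * X.card) * (4 ^ (K + K) * Y.card) := this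
      _ = 4 ^ (4 * K) * ((X.card : ℤ) * Y.card) := by
        have e0 : (4 : ℤ) ^ (4 * K) = 4 ^ (K + K) * 4 ^ (K + K) := by
          rw [← pow_add]; congr 1; ring
        rw [e0]; ring
  have h3 : (S.card : ℤ) ^ 4 ≤ 4 ^ (8 * K) * ((X.card : ℤ) * Y.card) ^ 2 := by
    calc (S.card : ℤ) ^ 4 = ((S.card : ℤ) ^ 2) ^ 2 := by ring
      _ ≤ (4 ^ (4 * K) * ((X.card : ℤ) * Y.card)) ^ 2 := pow_le_pow_left₀ (by positivity) h2 2
      _ = 4 ^ (8 * K) * ((X.card : ℤ) * Y.card) ^ 2 := by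
        have e0 : (4 : ℤ) ^ (8 * K) = (4 ^ (4 * K)) ^ 2 := by
          rw [← pow_mul]; congr 1; ring
        rw [e0]; ring
  have h4 : (S.card : ℤ) ^ 4 ≤ 4 ^ (8 * K) * Q := h3.trans (mul_le_mul_of_nonneg_left h1 (by positivity))
  calc (S.card : ℤ) ^ 8 = ((S.card : ℤ) ^ 4) ^ 2 := by ring
    _ ≤ (4 ^ (8 * K) * Q) ^ 2 := pow_le_pow_left₀ (by positivity) h4 2
    _ = (4 ^ (8 * K)) ^ 2 * Q ^ 2 := by ring

theorem st_MLOW3 (hL : ST_LOW) (hS : ST_SUM) (hF : ST_FIB) : ST_MLOW3 := by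
  intro K hK
  have hK0 : (0 : ℝ) < K := by exact_mod_cast hK
  refine ⟨(4 ^ (8 * K)) ^ 2 * K ^ (2 * K) * 2 ^ (K + K + (K + K)) * 2 ^ 21, by positivity, ?_⟩
  intro N q P D S e c d k w T hN hNP hD1 hD hPP hT hTc
  set Z : ℕ := P ^ K with hZ
  have hD0 : 0 < D := by linarith
  have hNr : (1 : ℝ) ≤ N := by exact_mod_cast hN
  have hP1 : 1 ≤ P := by
    rcases Nat.eq_zero_or_pos P with h | h
    · subst h
      rw [hZ, zero_pow (by omega)] at hNP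
      have := Nat.one_le_pow 10 N hN
      omega
    · exact h
  -- step 1: integers
  have hcy : ∀ t ∈ T4 S, cyc c t ≠ 0 ∧ |cyc c t| ≤ (((2 * N) ^ 4 : ℕ) : ℤ) ∧ cyc d t ≠ 0 ∧
      |cyc d t| ≤ (((2 * N) ^ 4 : ℕ) : ℤ) := by
    intro t ht
    obtain ⟨a1, a2⟩ := mlow_cyc (N := N) (c := c)
      (fun n hn n' hn' h => (mlow_edge hD hn hn' h).1) ht
    obtain ⟨a3, a4⟩ := mlow_cyc (N := N) (c := d)
      (fun n hn n' hn' h => (mlow_edge hD hn hn' h).2) ht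
    exact ⟨a1, a2, a3, a4⟩
  have h1 := hS (ℕ × ℕ × ℕ × ℕ) (T4 S) (cyc c) (cyc d) ((2 * N) ^ 4) Z hcy
  have h2 := hF K P T (fun r r' => (QQ S c d r r') ^ 2) hK (fun r r' => sq_nonneg _)
    (fun t ht => ⟨(hT t ht).1, fun i => by
      have h := (hT t ht).2.1 i
      unfold PP OP at h
      simp only [mem_filter, mem_erase, Nat.mem_primeFactors] at h
      exact ⟨h.1.2.1, h.1.1, h.2⟩⟩)
  have h3 : (T.card : ℤ) * (S.card : ℤ) ^ 8 ≤ (4 ^ (8 * K)) ^ 2 * ∑ t ∈ T,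
      (QQ S c d (∏ i : Fin K, t (Fin.castAdd K i)) (∏ i : Fin K, t (Fin.natAdd K i))) ^ 2 := by
    rw [mul_sum, ← nsmul_eq_mul]
    refine card_nsmul_le_sum T _ _ fun t ht => ?_
    exact mlow3_QQ hL hK hD (hT t ht).2.1 (hT t ht).2.2
  have h4 : (T.card : ℤ) * (S.card : ℤ) ^ 8 ≤ (4 ^ (8 * K)) ^ 2 * ((K : ℤ) ^ (2 * K) *
      ((Z : ℤ) ^ 2 * (MM S c d).card + (2 * Z * (4 * (((2 * N) ^ 4 : ℕ) : ℤ) ^ 2) +
        (4 * (((2 * N) ^ 4 : ℕ) : ℤ) ^ 2) ^ 2) * ((T4 S).card : ℤ) ^ 2)) := by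
    refine h3.trans (mul_le_mul_of_nonneg_left ?_ (by positivity))
    refine h2.trans ?_
    refine mul_le_mul_of_nonneg_left ?_ (by positivity)
    exact h1
  -- step 2: reals
  have h5 : (T.card : ℝ) * (S.card : ℝ) ^ 8 ≤ (4 ^ (8 * K)) ^ 2 * ((K : ℝ) ^ (2 * K) *
      ((Z : ℝ) ^ 2 * (MM S c d).card + (2 * Z * (4 * ((2 * (N : ℝ)) ^ 4) ^ 2) +
        (4 * ((2 * (N : ℝ)) ^ 4) ^ 2) ^ 2) * ((T4 S).card : ℝ) ^ 2)) := by
    exact_mod_cast h4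
  have hZr : (N : ℝ) ^ 10 ≤ Z := by exact_mod_cast hNP
  have hN0 : (0 : ℝ) < N := by linarith
  have hZ0 : (0 : ℝ) < Z := lt_of_lt_of_le (by positivity) hZr
  have h6 : 2 * (Z : ℝ) * (4 * ((2 * (N : ℝ)) ^ 4) ^ 2) + (4 * ((2 * (N : ℝ)) ^ 4) ^ 2) ^ 2 ≤
      2 ^ 21 * (Z : ℝ) ^ 2 / (N : ℝ) ^ 2 := by
    rw [le_div_iff₀ (by positivity)]
    have e1 : (2 * (Z : ℝ) * (4 * ((2 * (N : ℝ)) ^ 4) ^ 2) + (4 * ((2 * (N : ℝ)) ^ 4) ^ 2) ^ 2) *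
        (N : ℝ) ^ 2 = 2 ^ 11 * (Z * (N : ℝ) ^ 10) + 2 ^ 20 * (N : ℝ) ^ 18 := by ring
    rw [e1]
    have a1 : (Z : ℝ) * (N : ℝ) ^ 10 ≤ (Z : ℝ) ^ 2 := by
      rw [pow_two]
      exact mul_le_mul_of_nonneg_left hZr hZ0.le
    have a2 : (N : ℝ) ^ 18 ≤ (Z : ℝ) ^ 2 := by
      calc (N : ℝ) ^ 18 ≤ (N : ℝ) ^ 20 := pow_le_pow_right₀ hNr (by norm_num)
        _ = ((N : ℝ) ^ 10) ^ 2 := by ring
        _ ≤ (Z : ℝ) ^ 2 := pow_le_pow_left₀ (by positivity) hZr 2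
    nlinarith
  have h7 : ((T4 S).card : ℝ) ^ 2 ≤ (S.card : ℝ) ^ 8 := by
    have : ((T4 S).card : ℝ) ≤ (S.card : ℝ) ^ 4 := by exact_mod_cast mlow_card S
    calc ((T4 S).card : ℝ) ^ 2 ≤ ((S.card : ℝ) ^ 4) ^ 2 := pow_le_pow_left₀ (by positivity) this 2
      _ = (S.card : ℝ) ^ 8 := by ring
  have h8 : (Z : ℝ) ^ 2 * (MM S c d).card + (2 * Z * (4 * ((2 * (N : ℝ)) ^ 4) ^ 2) +
        (4 * ((2 * (N : ℝ)) ^ 4) ^ 2) ^ 2) * ((T4 S).card : ℝ) ^ 2 ≤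
      2 ^ 21 * (Z : ℝ) ^ 2 * (((MM S c d).card : ℝ) + (S.card : ℝ) ^ 8 / (N : ℝ) ^ 2) := by
    have b1 := mul_le_mul h6 h7 (by positivity) (by positivity)
    have b2 : (0 : ℝ) ≤ (Z : ℝ) ^ 2 * (MM S c d).card := by positivity
    have e2 : 2 ^ 21 * (Z : ℝ) ^ 2 * (((MM S c d).card : ℝ) + (S.card : ℝ) ^ 8 / (N : ℝ) ^ 2) =
        2 ^ 21 * ((Z : ℝ) ^ 2 * (MM S c d).card) + 2 ^ 21 * (Z : ℝ) ^ 2 / (N : ℝ) ^ 2 *
          (S.card : ℝ) ^ 8 := by ring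
    rw [e2]
    have b3 : (Z : ℝ) ^ 2 * (MM S c d).card ≤ 2 ^ 21 * ((Z : ℝ) ^ 2 * (MM S c d).card) :=
      le_mul_of_one_le_left b2 (by norm_num)
    linarith
  -- lower bound for the number of tuples
  have h9 : (Z : ℝ) ^ 2 ≤ 2 ^ (K + K) * D ^ (K + K) * T.card := by
    have b1 : ((PP q P).card : ℝ) ^ (K + K) ≤ 2 ^ (K + K) * T.card := by exact_mod_cast hTc
    have b2 : (P : ℝ) ^ (K + K) ≤ (D * (PP q P).card) ^ (K + K) :=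
      pow_le_pow_left₀ (by positivity) hPP _
    have e3 : (Z : ℝ) ^ 2 = (P : ℝ) ^ (K + K) := by
      rw [hZ]
      push_cast
      rw [← pow_mul]; congr 1; ring
    rw [e3]
    calc (P : ℝ) ^ (K + K) ≤ (D * (PP q P).card) ^ (K + K) := b2
      _ = D ^ (K + K) * ((PP q P).card : ℝ) ^ (K + K) := by rw [mul_pow]
      _ ≤ D ^ (K + K) * (2 ^ (K + K) * T.card) := mul_le_mul_of_nonneg_left b1 (by positivity)
      _ = 2 ^ (K + K) * D ^ (K + K) * T.card := by ring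
  set R : ℝ := ((MM S c d).card : ℝ) + (S.card : ℝ) ^ 8 / (N : ℝ) ^ 2 with hR
  have h10 : (T.card : ℝ) * (S.card : ℝ) ^ 8 ≤
      (4 ^ (8 * K)) ^ 2 * ((K : ℝ) ^ (2 * K) * (2 ^ 21 * (Z : ℝ) ^ 2 * R)) :=
    h5.trans (mul_le_mul_of_nonneg_left (mul_le_mul_of_nonneg_left h8 (by positivity))
      (by positivity))
  have hZ2 : (0 : ℝ) < (Z : ℝ) ^ 2 := by positivity
  refine le_of_mul_le_mul_left ?_ hZ2
  calc (Z : ℝ) ^ 2 * (S.card : ℝ) ^ 8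
      ≤ (2 ^ (K + K) * D ^ (K + K) * T.card) * (S.card : ℝ) ^ 8 :=
        mul_le_mul_of_nonneg_right h9 (by positivity)
    _ = (2 ^ (K + K) * D ^ (K + K)) * ((T.card : ℝ) * (S.card : ℝ) ^ 8) := by ring
    _ ≤ (2 ^ (K + K) * D ^ (K + K)) *
        ((4 ^ (8 * K)) ^ 2 * ((K : ℝ) ^ (2 * K) * (2 ^ 21 * (Z : ℝ) ^ 2 * R))) :=
        mul_le_mul_of_nonneg_left h10 (by positivity)
    _ ≤ (2 ^ (K + K) * 2 ^ (K + K) * D ^ (K + K)) *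
        ((4 ^ (8 * K)) ^ 2 * ((K : ℝ) ^ (2 * K) * (2 ^ 21 * (Z : ℝ) ^ 2 * R))) := by
        have hR0 : 0 ≤ R := by rw [hR]; positivity
        refine mul_le_mul_of_nonneg_right ?_ (by positivity)
        have e4 : (1 : ℝ) ≤ 2 ^ (K + K) := one_le_pow₀ (by norm_num)
        have e5 : (0 : ℝ) < 2 ^ (K + K) * D ^ (K + K) := by positivity
        nlinarith
    _ = (Z : ℝ) ^ 2 * ((4 ^ (8 * K)) ^ 2 * (K : ℝ) ^ (2 * K) * 2 ^ (K + K + (K + K)) * 2 ^ 21 *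
        D ^ (K + K) * R) := by
        rw [pow_add (2 : ℝ) (K + K) (K + K)]; ring

end Pool.Agent.Helper30.RD3
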