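import Pool.Agent.Helper30.RD3.Sheet

set_option autoImplicit false

namespace Pool.Agent.Helper30.RD3

open Finset Pool.Agent.Helper18.RD

theorem st_END3 (hA : ST_ENA) (hB : ST_ENB) (hC : ST_ENC) : ST_END3 := by
  intro ε hε
  obtain ⟨C2, hC2, hB⟩ := hB ε hε
  obtain ⟨C1, hC1, hC⟩ := hC ε hε
  refine ⟨1 + C1 + 4 * Real.sqrt C2, by positivity, ?_⟩
  intro N S c d k hN hS hk hcd
  set r : ℝ := (S.card : ℝ) with hr
  set n : ℝ := (N : ℝ) with hn
  have hn1 : 1 ≤ n := by rw [hn]; exact_mod_cast hN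
  have hn0 : 0 < n := by linarith
  -- reduce to nonempty sets
  rcases Nat.eq_zero_or_pos S.card with h0 | h0
  · have hSe : S = ∅ := Finset.card_eq_zero.mp h0
    have : (MM S c d).card = 0 := by
      rw [Finset.card_eq_zero, hSe]
      unfold MM T4
      simp
    rw [this]
    push_cast
    have hr0 : 0 ≤ r := by rw [hr]; positivity
    positivity
  have hr1 : 1 ≤ r := by rw [hr]; exact_mod_cast h0
  have hr0 : 0 < r := by linarith
  have hrn : r ≤ n := by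
    rw [hr, hn]
    have := Finset.card_le_card hS
    rw [card_range] at this
    exact_mod_cast this
  set a : ℝ := r ^ (1 / 6 : ℝ) with ha
  set b : ℝ := n ^ (1 / 6 : ℝ) with hb
  set y : ℝ := n ^ ε with hy
  have ha1 : 1 ≤ a := Real.one_le_rpow hr1 (by norm_num)
  have ha0 : 0 < a := by linarith
  have hb1 : 1 ≤ b := Real.one_le_rpow hn1 (by norm_num)
  have hb0 : 0 < b := by linarith
  have hy1 : 1 ≤ y := Real.one_le_rpow hn1 hε.le
  have hy0 : 0 < y := by linarith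
  have hra : r = a ^ 6 := by
    rw [ha, ← Real.rpow_natCast, ← Real.rpow_mul hr0.le]
    norm_num
  have hnb : n = b ^ 6 := by
    rw [hb, ← Real.rpow_natCast, ← Real.rpow_mul hn0.le]
    norm_num
  have hb3 : n ^ (1 / 3 : ℝ) = b ^ 2 := by
    rw [hb, ← Real.rpow_natCast, ← Real.rpow_mul hn0.le]
    norm_num
  have ha3 : r ^ (1 / 3 : ℝ) = a ^ 2 := by
    rw [ha, ← Real.rpow_natCast, ← Real.rpow_mul hr0.le]
    norm_num
  have hb2 : n ^ (1 / 2 : ℝ) = b ^ 3 := by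
    rw [hb, ← Real.rpow_natCast, ← Real.rpow_mul hn0.le]
    norm_num
  have hba : a ≤ b := Real.rpow_le_rpow hr0.le hrn (by norm_num)
  have hq : (n / r) ^ (1 / 3 : ℝ) = b ^ 2 / a ^ 2 := by
    rw [Real.div_rpow hn0.le hr0.le, hb3, ha3]
  have hba1 : 1 ≤ b / a := by rw [one_le_div ha0]; exact hba
  clear_value a b y
  clear ha hb
  set E : ℕ := ⌈b ^ 2 / a ^ 2⌉₊ with hE
  have hE1 : b ^ 2 / a ^ 2 ≤ E := Nat.le_ceil _
  have hE2 : (E : ℝ) ≤ 2 * (b ^ 2 / a ^ 2) := by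
    have h1 : (E : ℝ) < b ^ 2 / a ^ 2 + 1 := Nat.ceil_lt_add_one (by positivity)
    have h2 : 1 ≤ b ^ 2 / a ^ 2 := by
      rw [← div_pow]
      exact one_le_pow₀ hba1
    linarith
  have hE0 : 1 ≤ E := by
    rw [hE]
    exact Nat.ceil_pos.mpr (by positivity)
  have hsq : b / a ≤ Real.sqrt E := by
    refine Real.le_sqrt_of_sq_le ?_
    rw [div_pow]
    exact hE1
  set g : ℝ := Real.sqrt C2 * a ^ 9 * y with hg
  have hg0 : 0 ≤ g := by positivity
  have hG : ∀ e : ℕ, 1 ≤ e → ((G2 S e).card : ℝ) ≤ g := by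
    intro e he
    have h1 := hB N e S hN he hS
    have h2 : ((G2 S e).card : ℝ) ^ 2 ≤ g ^ 2 := by
      refine h1.trans ?_
      rw [hg, mul_pow, mul_pow, Real.sq_sqrt hC2.le]
      have e1 : r ^ 3 = (a ^ 9) ^ 2 := by rw [hra]; ring
      rw [← hr, e1, ← hn, ← hy]
      have e2 : y ≤ y ^ 2 := by nlinarith
      exact mul_le_mul_of_nonneg_left e2 (by positivity)
    exact (sq_le_sq₀ (by positivity) hg0).mp h2
  have hX : ∀ (z : ℕ) (B : ℤ), z < N → B ≠ 0 → |(B : ℝ)| ≤ 256 * (N : ℝ) ^ 4 →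
      ((E3 S z B).card : ℝ) ≤ (1 + C1 + 4 * Real.sqrt C2) * (r ^ 2 * a * (b ^ 2 * y)) := by
    intro z B hz hB0 hBb
    have h1 := hC N E z B S hN hE0 hz hB0 hBb hS
    rw [← hr, ← hn] at h1
    have h2 : ∑ e ∈ Icc 1 E, ((G2 S e).card : ℝ) ≤ E * g := by
      have := Finset.sum_le_card_nsmul (Icc 1 E) (fun e => ((G2 S e).card : ℝ)) g
        (fun e he => hG e (mem_Icc.mp he).1)
      rw [Nat.card_Icc, nsmul_eq_mul] at this
      simpa using this
    have h3 : C1 * r ^ 2 * n ^ (1 / 2 + ε) / Real.sqrt E ≤ C1 * (r ^ 2 * a * (b ^ 2 * y)) := by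
      rw [Real.rpow_add hn0, hb2, ← hy]
      have hs0 : 0 < Real.sqrt E := lt_of_lt_of_le (by positivity) hsq
      rw [div_le_iff₀ hs0]
      have e1 : C1 * r ^ 2 * (b ^ 3 * y) = C1 * (r ^ 2 * a * (b ^ 2 * y)) * (b / a) := by
        field_simp
      rw [e1]
      exact mul_le_mul_of_nonneg_left hsq (by positivity)
    have h4 : 2 * r * ∑ e ∈ Icc 1 E, ((G2 S e).card : ℝ) ≤
        4 * Real.sqrt C2 * (r ^ 2 * a * (b ^ 2 * y)) := by
      calc 2 * r * ∑ e ∈ Icc 1 E, ((G2 S e).card : ℝ) ≤ 2 * r * (E * g) :=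
            mul_le_mul_of_nonneg_left h2 (by positivity)
        _ ≤ 2 * r * ((2 * (b ^ 2 / a ^ 2)) * g) := by
            refine mul_le_mul_of_nonneg_left (mul_le_mul_of_nonneg_right hE2 hg0) (by positivity)
        _ = 4 * Real.sqrt C2 * (r ^ 2 * a * (b ^ 2 * y)) := by
            rw [hg, hra]
            field_simp
            ring
    have h5 : r ^ 2 ≤ 1 * (r ^ 2 * a * (b ^ 2 * y)) := by
      have e1 : 1 ≤ a * (b ^ 2 * y) := by
        have e2 : 1 ≤ b ^ 2 := one_le_pow₀ hb1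
        have e3 : 1 ≤ b ^ 2 * y := one_le_mul_of_one_le_of_one_le e2 hy1
        exact one_le_mul_of_one_le_of_one_le ha1 e3
      have e4 : 0 < r ^ 2 := by positivity
      nlinarith
    calc ((E3 S z B).card : ℝ) ≤ _ := h1
      _ ≤ 1 * (r ^ 2 * a * (b ^ 2 * y)) + C1 * (r ^ 2 * a * (b ^ 2 * y)) +
          4 * Real.sqrt C2 * (r ^ 2 * a * (b ^ 2 * y)) := add_le_add (add_le_add h5 h3) h4
      _ = _ := by ring
  have hfin := hA N S c d k _ hN hS hk hcd hX
  rw [← hr] at hfin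
  refine hfin.trans (le_of_eq ?_)
  rw [Real.rpow_add hn0, hb3, ← hy]
  ring

end Pool.Agent.Helper30.RD3
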